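import Pool.Agent.Y214.DBM.Local

/-!
The family `(1 : n : ℓ_2^n : … : ℓ_N^n)` with Zariski dense orbit.
-/

set_option autoImplicit false

open NumberField IsDedekindDomain Filter Topology

namespace Pool.Agent.Y214.DBM

/-- a vector with natural number coordinates, the first of which is `1` -/
def natV {N : ℕ} (L : Type*) [Field L] (c : Fin (N + 1) → ℕ) (h : c 0 = 1) :
    {v : Fin (N + 1) → L // v ≠ 0} :=
  ⟨fun i => (c i : L), fun h0 => by
    have := congrFun h0 0
    simp [h] at this⟩

theorem inclV_natV {N : ℕ} {K : Type*} (L : Type*) [Field K] [Field L] [Algebra K L]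
    (c : Fin (N + 1) → ℕ) (h : c 0 = 1) : inclV L (natV K c h) = natV L c h := by
  apply Subtype.ext
  funext i
  simp [inclV, incl, natV]

/-- the last coordinate vector -/
def lastV (N : ℕ) (L : Type*) [Field L] : {v : Fin (N + 1) → L // v ≠ 0} :=
  ⟨fun i => if i.val = N then 1 else 0, fun h => by
    have := congrFun h (Fin.last N)
    simp at this⟩

theorem inclV_lastV (N : ℕ) (K L : Type*) [Field K] [Field L] [Algebra K L] :
    inclV L (lastV N K) = lastV N L := by
  apply Subtype.ext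
  funext i
  by_cases h : i.val = N
  · simp [inclV, incl, lastV, h]
  · simp [inclV, incl, lastV, h]

theorem tendsto_u : Tendsto (fun k : ℕ => k.factorial - 1) atTop atTop := by
  have h2 : Tendsto (fun k : ℕ => k - 1) atTop atTop := tendsto_sub_atTop_nat 1
  exact tendsto_atTop_mono (fun k => Nat.sub_le_sub_right (Nat.self_le_factorial k) 1) h2

/-- the primes `ℓ_i` -/
noncomputable def ell (i : ℕ) : ℕ := Nat.nth Nat.Prime i

theorem ell_prime (i : ℕ) : (ell i).Prime := Nat.prime_nth_prime i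

theorem ell_mono : StrictMono ell := Nat.nth_strictMono Nat.infinite_setOfPred_prime

/-- the coordinates `1, n, ℓ_i^n` -/
noncomputable def cA (N n : ℕ) : Fin (N + 1) → ℕ := fun i =>
  if i.val = 0 then 1 else if i.val = 1 then n else ell i.val ^ n

theorem cA_zero (N n : ℕ) : cA N n 0 = 1 := by simp [cA]

/-- the linear map `(x_0, x_1, x_i) ↦ (x_0, x_0 + x_1, ℓ_i x_i)` -/
noncomputable def linA (N : ℕ) (K : Type*) [Field K] : (Fin (N + 1) → K) →ₗ[K] (Fin (N + 1) → K) where
  toFun w i := if i.val = 0 then w i else if i.val = 1 then w 0 + w i else (ell i.val : K) * w i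
  map_add' v w := by
    funext i
    by_cases h0 : i.val = 0
    · simp only [Pi.add_apply, if_pos h0]
    · by_cases h1 : i.val = 1
      · simp only [Pi.add_apply, if_neg h0, if_pos h1]; ring
      · simp only [Pi.add_apply, if_neg h0, if_neg h1]; ring
  map_smul' a v := by
    funext i
    by_cases h0 : i.val = 0
    · simp only [Pi.smul_apply, smul_eq_mul, RingHom.id_apply, if_pos h0]
    · by_cases h1 : i.val = 1
      · simp only [Pi.smul_apply, smul_eq_mul, RingHom.id_apply, if_neg h0, if_pos h1]; ring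
      · simp only [Pi.smul_apply, smul_eq_mul, RingHom.id_apply, if_neg h0, if_neg h1]; ring

theorem linA_inj (N : ℕ) (K : Type*) [Field K] [CharZero K] : Function.Injective (linA N K) := by
  rw [← LinearMap.ker_eq_bot, LinearMap.ker_eq_bot']
  intro w hw
  have h0 : w 0 = 0 := by
    have := congrFun hw 0
    simpa [linA] using this
  funext i
  have h := congrFun hw i
  by_cases hi0 : i.val = 0
  · have : i = 0 := Fin.ext hi0
    rw [this]
    exact h0
  · by_cases hi1 : i.val = 1
    · simpa [linA, hi1, h0] using h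
    · have hl : (ell i.val : K) ≠ 0 := Nat.cast_ne_zero.2 (ell_prime _).ne_zero
      simp only [linA, LinearMap.coe_mk, AddHom.coe_mk, if_neg hi0, if_neg hi1, Pi.zero_apply,
        mul_eq_zero] at h
      exact h.resolve_left hl

/-- the linear automorphism `(x_0, x_1, x_i) ↦ (x_0, x_0 + x_1, ℓ_i x_i)` -/
noncomputable def gA (N : ℕ) (K : Type*) [Field K] [CharZero K] :
    (Fin (N + 1) → K) ≃ₗ[K] (Fin (N + 1) → K) :=
  LinearEquiv.ofInjectiveEndo (linA N K) (linA_inj N K)

theorem gA_step (N n : ℕ) (K : Type*) [Field K] [CharZero K] :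
    gA N K (natV K (cA N n) (cA_zero N n)).1 = (natV K (cA N (n + 1)) (cA_zero N (n + 1))).1 := by
  funext i
  change (if i.val = 0 then ((cA N n i : ℕ) : K) else if i.val = 1 then
    ((cA N n 0 : ℕ) : K) + ((cA N n i : ℕ) : K) else (ell i.val : K) * ((cA N n i : ℕ) : K)) =
    ((cA N (n + 1) i : ℕ) : K)
  by_cases h0 : i.val = 0
  · simp [cA, h0]
  · by_cases h1 : i.val = 1
    · simp only [cA, h1, if_neg one_ne_zero, if_true, Fin.val_zero]
      push_cast
      ring
    · simp only [cA, h0, h1, if_false]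
      push_cast
      ring

/-- the linear form `x_0 + x_1` -/
noncomputable def linG (N : ℕ) (h1 : 1 < N + 1) (K : Type*) [Field K] :
    MvPolynomial (Fin (N + 1)) K := MvPolynomial.X 0 + MvPolynomial.X ⟨1, h1⟩

theorem linG_hom (N : ℕ) (h1 : 1 < N + 1) (K : Type*) [Field K] :
    (linG N h1 K).IsHomogeneous 1 :=
  (MvPolynomial.isHomogeneous_X K _).add (MvPolynomial.isHomogeneous_X K _)

theorem linG_aeval (N : ℕ) (h1 : 1 < N + 1) (K L : Type*) [Field K] [Field L] [Algebra K L]
    (v : Fin (N + 1) → L) : MvPolynomial.aeval v (linG N h1 K) = v 0 + v ⟨1, h1⟩ := by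
  simp [linG]

theorem linG_ne (N : ℕ) (h1 : 1 < N + 1) (K : Type*) [Field K] : linG N h1 K ≠ 0 := by
  intro h
  have h2 := linG_aeval N h1 K K (fun i => if i.val = 0 then 1 else 0)
  rw [h] at h2
  simp at h2

theorem natA_notMem (N n : ℕ) (h1 : 1 < N + 1) (K : Type*) [Field K] [CharZero K] :
    MvPolynomial.aeval (natV K (cA N n) (cA_zero N n)).1 (linG N h1 K) ≠ 0 := by
  rw [linG_aeval]
  intro h
  have h2 : ((n + 1 : ℕ) : K) = 0 := by
    rw [← h]
    simp only [natV, cA, Fin.val_zero, if_true, if_neg one_ne_zero]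
    push_cast
    ring
  exact (Nat.succ_ne_zero n) (Nat.cast_eq_zero.1 h2)

section inf

variable {L : Type*} [NormedField L]

theorem infA (N : ℕ) (hN : 2 ≤ N) (hn : ∀ n : ℕ, ‖(n : L)‖ = n) :
    Tendsto (fun k : ℕ => pt (natV L (cA N (k.factorial - 1)) (cA_zero N _))) atTop
      (𝓝 (pt (lastV N L))) := by
  have hl0 : (ell N : L) ≠ 0 := by
    rw [← norm_ne_zero_iff, hn]
    exact_mod_cast (ell_prime N).ne_zero
  have hlR : (1 : ℝ) < ell N := by exact_mod_cast (ell_prime N).one_lt
  refine tendsto_pt _ _ (fun k => ((ell N : L) ^ (k.factorial - 1))⁻¹) ?_ ?_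
  · exact Eventually.of_forall fun k => inv_ne_zero (pow_ne_zero _ hl0)
  · intro i
    by_cases hi : i.val = N
    · have h1 : ∀ k : ℕ, ((ell N : L) ^ (k.factorial - 1))⁻¹ *
          (natV L (cA N (k.factorial - 1)) (cA_zero N _)).1 i = 1 := by
        intro k
        have e0 : N ≠ 0 := by omega
        have e1 : N ≠ 1 := by omega
        simp only [natV, cA, hi, if_neg e0, if_neg e1, Nat.cast_pow]
        rw [inv_mul_cancel₀ (pow_ne_zero _ hl0)]
      have h2 : (lastV N L).1 i = 1 := by simp [lastV, hi]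
      simp only [h1, h2]
      exact tendsto_const_nhds
    · have h2 : (lastV N L).1 i = 0 := by simp [lastV, hi]
      rw [h2, tendsto_zero_iff_norm_tendsto_zero]
      have hu : Tendsto (fun k : ℕ => k.factorial - 1) atTop atTop := tendsto_u
      by_cases hi0 : i.val = 0
      · have h3 : Tendsto (fun k : ℕ => (((ell N : ℝ) ^ (k.factorial - 1))⁻¹)) atTop (𝓝 0) :=
          tendsto_inv_atTop_zero.comp ((tendsto_pow_atTop_atTop_of_one_lt hlR).comp hu)
        refine h3.congr fun k => ?_
        simp only [natV, cA, hi0, if_true, Nat.cast_one, mul_one, norm_inv, norm_pow, hn]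
      · by_cases hi1 : i.val = 1
        · have h3 : Tendsto (fun k : ℕ => ((k.factorial - 1 : ℕ) : ℝ) ^ 1 /
              (ell N : ℝ) ^ (k.factorial - 1)) atTop (𝓝 0) :=
            (tendsto_pow_const_div_const_pow_of_one_lt 1 hlR).comp hu
          refine h3.congr fun k => ?_
          simp only [natV, cA, hi1, if_neg one_ne_zero, if_true, norm_mul, norm_inv, norm_pow, hn,
            pow_one]
          rw [div_eq_mul_inv, mul_comm]
        · have hlt : i.val < N := by have := i.2; omega
          have hr0 : (0 : ℝ) ≤ (ell i.val : ℝ) / ell N := by positivity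
          have hr : (ell i.val : ℝ) / ell N < 1 := by
            rw [div_lt_one (by linarith)]
            exact_mod_cast ell_mono hlt
          have h3 : Tendsto (fun k : ℕ => ((ell i.val : ℝ) / ell N) ^ (k.factorial - 1)) atTop
              (𝓝 0) := (tendsto_pow_atTop_nhds_zero_of_lt_one hr0 hr).comp hu
          refine h3.congr fun k => ?_
          simp only [natV, cA, if_neg hi0, if_neg hi1, Nat.cast_pow, norm_mul, norm_inv, norm_pow,
            hn]
          rw [div_pow, div_eq_mul_inv, mul_comm]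

end inf

/-- the limit vector at a finite place of residue characteristic `p` -/
noncomputable def limV (N p : ℕ) (L : Type*) [Field L] : {v : Fin (N + 1) → L // v ≠ 0} :=
  ⟨fun i => if i.val = 0 then 1 else if i.val = 1 then -1 else
    if ell i.val = p then 0 else (ell i.val : L)⁻¹, fun h => by
    have := congrFun h 0
    simp at this⟩

theorem limV_mem (N p : ℕ) (h1 : 1 < N + 1) (K : Type*) [Field K] :
    MvPolynomial.aeval (limV N p K).1 (linG N h1 K) = 0 := by
  rw [linG_aeval]
  simp only [limV, Fin.val_zero, if_true, if_neg one_ne_zero]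
  ring

theorem lastV_mem (N : ℕ) (hN : 2 ≤ N) (h1 : 1 < N + 1) (K : Type*) [Field K] :
    MvPolynomial.aeval (lastV N K).1 (linG N h1 K) = 0 := by
  have e0 : ¬ ((0 : Fin (N + 1)).val = N) := by
    rw [Fin.val_zero]
    omega
  have e1 : ¬ ((⟨1, h1⟩ : Fin (N + 1)).val = N) := by
    change ¬ (1 = N)
    omega
  have a0 : (lastV N K).1 0 = 0 := if_neg e0
  have a1 : (lastV N K).1 ⟨1, h1⟩ = 0 := if_neg e1
  rw [linG_aeval, a0, a1, add_zero]

theorem inclV_limV (N p : ℕ) (K L : Type*) [Field K] [Field L] [Algebra K L] :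
    inclV L (limV N p K) = limV N p L := by
  apply Subtype.ext
  funext i
  simp only [inclV, incl, limV, LinearMap.coe_mk, AddHom.coe_mk]
  split_ifs <;> simp

theorem finA {L : Type*} [NormedField L] [CharZero L] (N : ℕ) (hint : ∀ n : ℤ, ‖(n : L)‖ ≤ 1)
    (p : ℕ) (hpp : p.Prime) (hp : ‖(p : L)‖ < 1) :
    Tendsto (fun k : ℕ => pt (natV L (cA N (k.factorial - 1)) (cA_zero N _))) atTop
      (𝓝 (pt (limV N p L))) := by
  refine tendsto_pt _ _ (fun _ => 1) (Eventually.of_forall fun _ => one_ne_zero) ?_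
  intro i
  simp only [one_mul, natV, cA, limV]
  by_cases h0 : i.val = 0
  · simp only [h0, if_true, Nat.cast_one]
    exact tendsto_const_nhds
  · by_cases h1 : i.val = 1
    · simp only [h1, if_neg one_ne_zero, if_true]
      exact tendsto_fact hint p hpp.pos hp
    · by_cases h2 : ell i.val = p
      · simp only [if_neg h0, if_neg h1, if_pos h2]
        rw [h2]
        exact tendsto_pow_of_eq hint p hp
      · simp only [if_neg h0, if_neg h1, if_neg h2]
        exact tendsto_pow_of_ne hint p hpp hp _ (ell_prime _) h2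

/-! Zariski density. -/

theorem ratio_tendsto (a b a' b' : ℕ) (hb' : 0 < b')
    (h : b < b' ∨ (b = b' ∧ a < a')) :
    Tendsto (fun n : ℕ => ((n : ℝ) ^ a * (b : ℝ) ^ n) / ((n : ℝ) ^ a' * (b' : ℝ) ^ n)) atTop
      (𝓝 0) := by
  have hb0 : (0 : ℝ) < b' := by exact_mod_cast hb'
  rcases h with h | ⟨rfl, h⟩
  · have hr0 : (0 : ℝ) ≤ (b : ℝ) / b' := by positivity
    have hr : (b : ℝ) / b' < 1 := by
      rw [div_lt_one hb0]
      exact_mod_cast h
    have h1 : Tendsto (fun n : ℕ => (n : ℝ) ^ a * ((b : ℝ) / b') ^ n) atTop (𝓝 0) :=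
      tendsto_pow_const_mul_const_pow_of_abs_lt_one a (by rw [abs_of_nonneg hr0]; exact hr)
    refine squeeze_zero' (Eventually.of_forall fun n => by positivity) ?_ h1
    filter_upwards [eventually_ge_atTop 1] with n hn
    have hn1 : (1 : ℝ) ≤ n := by exact_mod_cast hn
    have hn2 : (1 : ℝ) ≤ (n : ℝ) ^ a' := one_le_pow₀ hn1
    rw [div_pow, ← mul_div_assoc]
    apply div_le_div_of_nonneg_left (by positivity) (by positivity)
    nlinarith [pow_pos hb0 n]
  · have h1 : Tendsto (fun n : ℕ => (((n : ℝ)) ^ (a' - a))⁻¹) atTop (𝓝 0) :=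
      tendsto_inv_atTop_zero.comp ((tendsto_pow_atTop (by omega)).comp
        tendsto_natCast_atTop_atTop)
    refine Tendsto.congr' ?_ h1
    filter_upwards [eventually_ge_atTop 1] with n hn
    have hn0 : (n : ℝ) ≠ 0 := by
      have : (1 : ℝ) ≤ n := by exact_mod_cast hn
      linarith
    have e : (n : ℝ) ^ a' = (n : ℝ) ^ (a' - a) * (n : ℝ) ^ a := by
      rw [← pow_add]
      congr 1
      omega
    have hb1 : (b : ℝ) ^ n ≠ 0 := (pow_pos hb0 n).ne'
    rw [e]
    field_simp

theorem indep {ι : Type*} (S : Finset ι) (a b : ι → ℕ) (hb : ∀ s, 0 < b s)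
    (hinj : ∀ s ∈ S, ∀ t ∈ S, a s = a t → b s = b t → s = t) (c : ι → ℂ)
    (h : ∀ n : ℕ, ∑ s ∈ S, c s * ((n : ℂ) ^ a s * (b s : ℂ) ^ n) = 0) : ∀ s ∈ S, c s = 0 := by
  classical
  by_contra hcon
  push Not at hcon
  obtain ⟨s0, hs0, hc0⟩ := hcon
  let T := S.filter fun s => c s ≠ 0
  have hT : T.Nonempty := ⟨s0, Finset.mem_filter.2 ⟨hs0, hc0⟩⟩
  obtain ⟨t, htT, hmax⟩ := Finset.exists_max_image T (fun s => toLex (b s, a s)) hT
  have htS : t ∈ S := (Finset.mem_filter.1 htT).1
  have hct : c t ≠ 0 := (Finset.mem_filter.1 htT).2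
  have h1 : Tendsto (fun n : ℕ => ∑ s ∈ T, c s *
      ((((n : ℝ) ^ a s * (b s : ℝ) ^ n) / ((n : ℝ) ^ a t * (b t : ℝ) ^ n) : ℝ) : ℂ)) atTop
      (𝓝 (∑ s ∈ T, c s * (((if s = t then 1 else 0 : ℝ)) : ℂ))) := by
    apply tendsto_finsetSum
    intro s hs
    refine Tendsto.const_mul _ ((Complex.continuous_ofReal.tendsto _).comp ?_)
    by_cases hst : s = t
    · subst hst
      rw [if_pos rfl]
      refine Tendsto.congr' ?_ tendsto_const_nhds
      filter_upwards [eventually_ge_atTop 1] with n hn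
      have hn0 : (n : ℝ) ≠ 0 := by
        have : (1 : ℝ) ≤ n := by exact_mod_cast hn
        linarith
      have hb0 : (b s : ℝ) ≠ 0 := by exact_mod_cast (hb s).ne'
      exact (div_self (mul_ne_zero (pow_ne_zero _ hn0) (pow_ne_zero _ hb0))).symm
    · rw [if_neg hst]
      apply ratio_tendsto _ _ _ _ (hb t)
      have h2 := hmax s hs
      rw [Prod.Lex.toLex_le_toLex] at h2
      rcases h2 with h2 | ⟨h2, h3⟩
      · exact Or.inl h2
      · refine Or.inr ⟨h2, lt_of_le_of_ne h3 fun h4 => hst ?_⟩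
        exact hinj s (Finset.mem_filter.1 hs).1 t htS h4 h2
  have h2 : ∑ s ∈ T, c s * (((if s = t then 1 else 0 : ℝ)) : ℂ) = c t := by
    rw [Finset.sum_eq_single t]
    · simp
    · intro s _ hs
      simp [hs]
    · intro h
      exact absurd htT h
  have h3 : ∀ n : ℕ, ∑ s ∈ T, c s *
      ((((n : ℝ) ^ a s * (b s : ℝ) ^ n) / ((n : ℝ) ^ a t * (b t : ℝ) ^ n) : ℝ) : ℂ) = 0 := by
    intro n
    have h4 : ∑ s ∈ T, c s * ((n : ℂ) ^ a s * (b s : ℂ) ^ n) = 0 := by
      rw [← h n]
      apply Finset.sum_subset (Finset.filter_subset _ _)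
      intro s hs hs'
      have : c s = 0 := by
        by_contra hne
        exact hs' (Finset.mem_filter.2 ⟨hs, hne⟩)
      rw [this, zero_mul]
    have h5 : ∑ s ∈ T, c s *
      ((((n : ℝ) ^ a s * (b s : ℝ) ^ n) / ((n : ℝ) ^ a t * (b t : ℝ) ^ n) : ℝ) : ℂ) =
      (∑ s ∈ T, c s * ((n : ℂ) ^ a s * (b s : ℂ) ^ n)) / ((n : ℂ) ^ a t * (b t : ℂ) ^ n) := by
      rw [Finset.sum_div]
      refine Finset.sum_congr rfl fun s _ => ?_
      push_cast
      exact (mul_div_assoc _ _ _).symm
    rw [h5, h4, zero_div]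
  simp only [h3] at h1
  rw [h2] at h1
  exact hct (tendsto_nhds_unique h1 tendsto_const_nhds)

/-- The exponential part of a monomial. -/
noncomputable def lam (N : ℕ) (m : Fin (N + 1) →₀ ℕ) : ℕ :=
  ∏ i : Fin (N + 1), if 2 ≤ i.val then ell i.val ^ m i else 1

theorem lam_pos (N : ℕ) (m : Fin (N + 1) →₀ ℕ) : 0 < lam N m := by
  apply Finset.prod_pos
  intro i _
  split_ifs
  · exact pow_pos (ell_prime _).pos _
  · exact one_pos

theorem lam_factorization (N : ℕ) (m : Fin (N + 1) →₀ ℕ) (i : Fin (N + 1)) (hi : 2 ≤ i.val) :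
    (lam N m).factorization (ell i.val) = m i := by
  unfold lam
  rw [Nat.factorization_prod_apply, Finset.sum_eq_single i]
  · rw [if_pos hi, (ell_prime _).factorization_pow, Finsupp.single_eq_same]
  · intro j _ hj
    by_cases hj2 : 2 ≤ j.val
    · rw [if_pos hj2, (ell_prime _).factorization_pow, Finsupp.single_eq_of_ne]
      intro h
      exact hj (Fin.ext (ell_mono.injective h).symm)
    · rw [if_neg hj2, Nat.factorization_one]
      rfl
  · intro h
    exact absurd (Finset.mem_univ _) h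
  · intro j _
    split_ifs
    · exact pow_ne_zero _ (ell_prime _).ne_zero
    · exact one_ne_zero

theorem prod_cA (N : ℕ) (h1 : 1 < N + 1) (m : Fin (N + 1) →₀ ℕ) (n : ℕ) :
    ∏ i : Fin (N + 1), cA N n i ^ m i = n ^ m ⟨1, h1⟩ * lam N m ^ n := by
  have h2 : ∀ i : Fin (N + 1), cA N n i ^ m i =
      (if i = ⟨1, h1⟩ then n ^ m i else 1) * (if 2 ≤ i.val then ell i.val ^ m i else 1) ^ n := by
    intro i
    by_cases e0 : i.val = 0
    · have a1 : i ≠ ⟨1, h1⟩ := fun h => by
        rw [h] at e0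
        simp at e0
      have a2 : ¬ 2 ≤ i.val := by omega
      simp only [cA, if_pos e0, if_neg a1, if_neg a2, one_pow, mul_one]
    · by_cases e1 : i.val = 1
      · have a1 : i = ⟨1, h1⟩ := Fin.ext e1
        have a2 : ¬ 2 ≤ i.val := by omega
        simp only [cA, if_neg e0, if_pos e1, if_pos a1, if_neg a2, one_pow, mul_one]
      · have a1 : i ≠ ⟨1, h1⟩ := fun h => e1 (by rw [h])
        have a2 : 2 ≤ i.val := by omega
        simp only [cA, if_neg e0, if_neg e1, if_neg a1, if_pos a2, one_mul]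
        rw [← pow_mul, ← pow_mul, mul_comm]
  rw [Finset.prod_congr rfl fun i _ => h2 i, Finset.prod_mul_distrib, Finset.prod_ite_eq']
  simp only [Finset.mem_univ, if_true]
  rw [Finset.prod_pow]
  rfl

theorem monomial_ext (N e : ℕ) (h1 : 1 < N + 1) (m m' : Fin (N + 1) →₀ ℕ)
    (hm : ∑ i, m i = e) (hm' : ∑ i, m' i = e) (ha : m ⟨1, h1⟩ = m' ⟨1, h1⟩)
    (hl : lam N m = lam N m') : m = m' := by
  have key : ∀ i : Fin (N + 1), i ≠ 0 → m i = m' i := by
    intro i hi
    by_cases e1 : i.val = 1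
    · have a1 : i = ⟨1, h1⟩ := Fin.ext e1
      rw [a1]
      exact ha
    · have e0 : i.val ≠ 0 := fun h => hi (Fin.ext h)
      have a2 : 2 ≤ i.val := by omega
      rw [← lam_factorization N m i a2, ← lam_factorization N m' i a2, hl]
  have h0 : m 0 = m' 0 := by
    rw [Fin.sum_univ_succ] at hm hm'
    have h3 : ∑ i : Fin N, m i.succ = ∑ i : Fin N, m' i.succ :=
      Finset.sum_congr rfl fun i _ => key _ (Fin.succ_ne_zero i)
    omega
  ext i
  by_cases hi : i = 0
  · rw [hi, h0]
  · exact key i hi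

theorem dense (N : ℕ) (hN : 2 ≤ N) (K : Type*) [Field K] [NumberField K] :
    ZariskiDense (orbit (gA N K) (pt (natV K (cA N 0) (cA_zero N 0)))) := by
  intro e G hG hv
  have h1 : 1 < N + 1 := by omega
  rw [orbit_eq (gA N K) (fun n => natV K (cA N n) (cA_zero N n)) (fun n => gA_step N n K)] at hv
  have h2 : ∀ n : ℕ, ∑ m ∈ G.support, G.coeff m * ((n : K) ^ m ⟨1, h1⟩ * (lam N m : K) ^ n) = 0 := by
    intro n
    have h3 := hv (natV K (cA N n) (cA_zero N n)) ⟨n, rfl⟩
    rw [MvPolynomial.eval_eq'] at h3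
    rw [← h3]
    refine Finset.sum_congr rfl fun m _ => ?_
    congr 1
    have h4 := congrArg (Nat.cast (R := K)) (prod_cA N h1 m n)
    push_cast at h4
    rw [← h4]
    rfl
  let φ : K →+* ℂ := (Classical.arbitrary (K →+* ℂ))
  have h5 : ∀ m ∈ G.support, φ (G.coeff m) = 0 := by
    refine indep G.support (fun m => m ⟨1, h1⟩) (lam N) (lam_pos N) ?_ (fun m => φ (G.coeff m)) ?_
    · intro m hm m' hm' ha hl
      have d1 := hG (MvPolynomial.mem_support_iff.1 hm)
      have d2 := hG (MvPolynomial.mem_support_iff.1 hm')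
      rw [Finsupp.weight_apply, Finsupp.sum_fintype _ _ (by simp)] at d1 d2
      refine monomial_ext N e h1 m m' ?_ ?_ ha hl
      · simpa using d1
      · simpa using d2
    · intro n
      have h6 := congrArg φ (h2 n)
      rw [map_sum, map_zero] at h6
      rw [← h6]
      refine Finset.sum_congr rfl fun m _ => ?_
      simp
  ext m
  rw [MvPolynomial.coeff_zero]
  by_contra hne
  have := h5 m (MvPolynomial.mem_support_iff.2 hne)
  exact hne (φ.injective (by rw [this, map_zero]))

/-- the equality fails for a hyperplane and a Zariski dense orbit -/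
theorem hyperplane (N : ℕ) (hN : 2 ≤ N) (K : Type*) [Field K] [NumberField K] :
    ∃ (g : (Fin (N + 1) → K) ≃ₗ[K] (Fin (N + 1) → K)) (P : PN N K)
      (G : MvPolynomial (Fin (N + 1)) K),
      G.IsHomogeneous 1 ∧ G ≠ 0 ∧ ZariskiDense (orbit g P) ∧
      points {G} K ∩ orbit g P = ∅ ∧
      (adelicPoints {G} ∩ adelicClosure (orbit g P)).Nonempty ∧
      adelicClosure (points {G} K ∩ orbit g P) ≠
        adelicPoints {G} ∩ adelicClosure (orbit g P) := by
  have h1 : 1 < N + 1 := by omega
  have hY : ∀ G ∈ ({linG N h1 K} : Set (MvPolynomial (Fin (N + 1)) K)), ∃ e, G.IsHomogeneous e := by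
    intro G hG
    rw [Set.mem_singleton_iff.1 hG]
    exact ⟨1, linG_hom N h1 K⟩
  refine ⟨gA N K, pt (natV K (cA N 0) (cA_zero N 0)), linG N h1 K, linG_hom N h1 K,
    linG_ne N h1 K, dense N hN K, ?_⟩
  refine criterion (gA N K) (fun n => natV K (cA N n) (cA_zero N n)) (fun n => gA_step N n K)
    {linG N h1 K} hY ?_ (fun k => k.factorial - 1) ?_ ?_
  · intro n hmem
    exact natA_notMem N n h1 K ((mem_points_iff K _ hY _).1 hmem _ rfl)
  · intro v
    refine ⟨lastV N K, (mem_points_iff K _ hY _).2 ?_, ?_⟩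
    · intro G hG
      rw [Set.mem_singleton_iff.1 hG]
      exact lastV_mem N hN h1 K
    · simp only [inclV_natV, inclV_lastV]
      exact infA N hN (norm_nat_inf v)
  · intro v
    obtain ⟨p, hpp, hp⟩ := exists_prime v
    have := charZero_fin v
    refine ⟨limV N p K, (mem_points_iff K _ hY _).2 ?_, ?_⟩
    · intro G hG
      rw [Set.mem_singleton_iff.1 hG]
      exact limV_mem N p h1 K
    · simp only [inclV_natV, inclV_limV]
      exact finA N (norm_int_le v) p hpp hp

end Pool.Agent.Y214.DBM
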