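import Pool.Agent.Y214.DBM.Defs

/-!
A criterion for the failure of the dynamical Brauer–Manin equality for a linear automorphism.
-/

set_option autoImplicit false

open NumberField IsDedekindDomain Filter Topology

namespace Pool.Agent.Y214.DBM

/-- the image in `L^(N+1)` of a nonzero vector of `K^(N+1)` -/
def inclV {N : ℕ} {K : Type*} (L : Type*) [Field K] [Field L] [Algebra K L]
    (v : {v : Fin (N + 1) → K // v ≠ 0}) : {v : Fin (N + 1) → L // v ≠ 0} :=
  ⟨incl N K L v.1, fun h => v.2 (incl_inj N K L (h.trans (map_zero (incl N K L)).symm))⟩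

theorem loc_pt {N : ℕ} {K : Type*} (L : Type*) [Field K] [Field L] [Algebra K L]
    (v : {v : Fin (N + 1) → K // v ≠ 0}) : loc N K L (pt v) = pt (inclV L v) := by
  change Projectivization.map (incl N K L) (incl_inj N K L) (Projectivization.mk K _ _) = _
  rw [Projectivization.map_mk]
  rfl

theorem pt_eq_iff {N : ℕ} {L : Type*} [Field L] (v w : {v : Fin (N + 1) → L // v ≠ 0}) :
    pt v = pt w ↔ ∃ a : L, a • w.1 = v.1 :=
  Projectivization.mk_eq_mk_iff' L v.1 w.1 v.2 w.2

theorem exists_rep {N : ℕ} {L : Type*} [Field L] (x : PN N L) :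
    ∃ v : {v : Fin (N + 1) → L // v ≠ 0}, pt v = x :=
  ⟨⟨Projectivization.rep x, Projectivization.rep_nonzero x⟩, Projectivization.mk_rep x⟩

theorem iter {N : ℕ} {K : Type*} [Field K] (g : (Fin (N + 1) → K) ≃ₗ[K] (Fin (N + 1) → K))
    (vec : ℕ → {v : Fin (N + 1) → K // v ≠ 0}) (hg : ∀ n, g (vec n).1 = (vec (n + 1)).1) (n : ℕ) :
    (aut g)^[n] (pt (vec 0)) = pt (vec n) := by
  induction n with
  | zero => rfl
  | succ n ih =>
    rw [Function.iterate_succ_apply', ih]
    change Projectivization.map g.toLinearMap g.injective (Projectivization.mk K _ _) = _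
    rw [Projectivization.map_mk]
    refine (Projectivization.mk_eq_mk_iff' K _ _ _ _).2 ⟨1, ?_⟩
    rw [one_smul]
    exact (hg n).symm

theorem orbit_eq {N : ℕ} {K : Type*} [Field K] (g : (Fin (N + 1) → K) ≃ₗ[K] (Fin (N + 1) → K))
    (vec : ℕ → {v : Fin (N + 1) → K // v ≠ 0}) (hg : ∀ n, g (vec n).1 = (vec (n + 1)).1) :
    orbit g (pt (vec 0)) = Set.range fun n => pt (vec n) := by
  ext x
  simp only [orbit, Set.mem_ofPred_eq, Set.mem_range, iter g vec hg]

theorem cont_pt (N : ℕ) (L : Type*) [Field L] [TopologicalSpace L] :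
    Continuous (pt (N := N) (L := L)) := continuous_coinduced_rng

theorem eval_smul_hom {N e : ℕ} {K L : Type*} [Field K] [Field L] [Algebra K L]
    (G : MvPolynomial (Fin (N + 1)) K) (hG : G.IsHomogeneous e) (a : L) (v : Fin (N + 1) → L) :
    MvPolynomial.aeval (a • v) G = a ^ e * MvPolynomial.aeval v G := by
  rw [MvPolynomial.aeval_def, MvPolynomial.aeval_def, MvPolynomial.eval₂_eq',
    MvPolynomial.eval₂_eq', Finset.mul_sum]
  refine Finset.sum_congr rfl fun m hm => ?_
  have d := hG (MvPolynomial.mem_support_iff.1 hm)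
  rw [Finsupp.weight_apply, Finsupp.sum_fintype _ _ (by simp)] at d
  have h2 : ∏ i, (a • v) i ^ m i = a ^ e * ∏ i, v i ^ m i := by
    have d' : ∑ i, m i = e := by simpa using d
    rw [← d', ← Finset.prod_pow_eq_pow_sum, ← Finset.prod_mul_distrib]
    refine Finset.prod_congr rfl fun i _ => ?_
    rw [Pi.smul_apply, smul_eq_mul, mul_pow]
  rw [h2]
  ring

theorem mem_points_iff {N : ℕ} {K : Type*} (L : Type*) [Field K] [Field L] [Algebra K L]
    (Y : Set (MvPolynomial (Fin (N + 1)) K)) (hY : ∀ G ∈ Y, ∃ e, G.IsHomogeneous e)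
    (v : {v : Fin (N + 1) → L // v ≠ 0}) :
    pt v ∈ points Y L ↔ ∀ G ∈ Y, MvPolynomial.aeval v.1 G = 0 := by
  constructor
  · intro h G hG
    exact h v rfl G hG
  · intro h w hw G hG
    obtain ⟨a, ha⟩ := (pt_eq_iff w v).1 hw
    obtain ⟨e, he⟩ := hY G hG
    rw [← ha, eval_smul_hom G he, h G hG, mul_zero]

theorem incl_mem_points {N : ℕ} {K : Type*} (L : Type*) [Field K] [Field L] [Algebra K L]
    (Y : Set (MvPolynomial (Fin (N + 1)) K)) (hY : ∀ G ∈ Y, ∃ e, G.IsHomogeneous e)
    (v : {v : Fin (N + 1) → K // v ≠ 0}) (h : pt v ∈ points Y K) :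
    pt (inclV L v) ∈ points Y L := by
  rw [mem_points_iff L Y hY]
  intro G hG
  have h1 := (mem_points_iff K Y hY v).1 h G hG
  have h2 : MvPolynomial.aeval (inclV L v).1 G = algebraMap K L (MvPolynomial.aeval v.1 G) := by
    rw [← MvPolynomial.aeval_algebraMap_apply]
    rfl
  rw [h2, h1, map_zero]

theorem criterion {N : ℕ} {K : Type*} [Field K] [NumberField K]
    (g : (Fin (N + 1) → K) ≃ₗ[K] (Fin (N + 1) → K))
    (vec : ℕ → {v : Fin (N + 1) → K // v ≠ 0}) (hg : ∀ n, g (vec n).1 = (vec (n + 1)).1)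
    (Y : Set (MvPolynomial (Fin (N + 1)) K)) (hY : ∀ G ∈ Y, ∃ e, G.IsHomogeneous e)
    (hn : ∀ n, pt (vec n) ∉ points Y K) (u : ℕ → ℕ)
    (h1 : ∀ v : InfinitePlace K, ∃ w : {w : Fin (N + 1) → K // w ≠ 0}, pt w ∈ points Y K ∧
      Tendsto (fun k => pt (inclV v.Completion (vec (u k)))) atTop (𝓝 (pt (inclV v.Completion w))))
    (h2 : ∀ v : HeightOneSpectrum (𝓞 K), ∃ w : {w : Fin (N + 1) → K // w ≠ 0}, pt w ∈ points Y K ∧
      Tendsto (fun k => pt (inclV (v.adicCompletion K) (vec (u k)))) atTop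
        (𝓝 (pt (inclV (v.adicCompletion K) w)))) :
    points Y K ∩ orbit g (pt (vec 0)) = ∅ ∧
      (adelicPoints Y ∩ adelicClosure (orbit g (pt (vec 0)))).Nonempty ∧
      adelicClosure (points Y K ∩ orbit g (pt (vec 0))) ≠
        adelicPoints Y ∩ adelicClosure (orbit g (pt (vec 0))) := by
  have e1 : points Y K ∩ orbit g (pt (vec 0)) = ∅ := by
    rw [Set.eq_empty_iff_forall_notMem, orbit_eq g vec hg]
    rintro x ⟨hx, n, rfl⟩
    exact hn n hx
  have e2 : (adelicPoints Y ∩ adelicClosure (orbit g (pt (vec 0)))).Nonempty := by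
    choose w1 hw1 ht1 using h1
    choose w2 hw2 ht2 using h2
    let q : Adelic N K := (fun v => pt (inclV v.Completion (w1 v)),
      fun v => pt (inclV (v.adicCompletion K) (w2 v)))
    refine ⟨q, ⟨fun v => incl_mem_points _ Y hY _ (hw1 v),
      fun v => incl_mem_points _ Y hY _ (hw2 v)⟩, ?_⟩
    have hx : Tendsto (fun k => diag N K (pt (vec (u k)))) atTop (𝓝 q) := by
      have a1 : Tendsto (fun k => fun v : InfinitePlace K => loc N K v.Completion (pt (vec (u k))))
          atTop (𝓝 (fun v => pt (inclV v.Completion (w1 v)))) := by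
        rw [tendsto_pi_nhds]
        intro v
        simp only [loc_pt]
        exact ht1 v
      have a2 : Tendsto (fun k => fun v : HeightOneSpectrum (𝓞 K) =>
          loc N K (v.adicCompletion K) (pt (vec (u k))))
          atTop (𝓝 (fun v => pt (inclV (v.adicCompletion K) (w2 v)))) := by
        rw [tendsto_pi_nhds]
        intro v
        simp only [loc_pt]
        exact ht2 v
      exact a1.prodMk_nhds a2
    refine mem_closure_of_tendsto hx (Eventually.of_forall fun k => ⟨pt (vec (u k)), ?_, rfl⟩)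
    rw [orbit_eq g vec hg]
    exact ⟨u k, rfl⟩
  refine ⟨e1, e2, fun h => ?_⟩
  rw [← h, e1] at e2
  unfold adelicClosure at e2
  rw [Set.image_empty, closure_empty] at e2
  exact Set.not_nonempty_empty e2

end Pool.Agent.Y214.DBM
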