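import Mathlib

/-!
Projective space `P^N` over a number field, its adelic points, closed subvarieties and orbits of
linear automorphisms.
-/

set_option autoImplicit false

open NumberField IsDedekindDomain

noncomputable section

namespace Pool.Agent.Y214.DBM

/-- `P^N(L)`: the nonzero vectors of `L^(N+1)` up to scaling -/
def PN (N : ℕ) (L : Type*) [Field L] : Type _ := Projectivization L (Fin (N + 1) → L)

/-- the point `[v]` of a nonzero vector `v` -/
def pt {N : ℕ} {L : Type*} [Field L] (v : {v : Fin (N + 1) → L // v ≠ 0}) : PN N L :=
  Projectivization.mk L v.1 v.2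

/-- `P^N(L)` for a topological field `L`: the quotient topology of `L^(N+1) ∖ {0}` -/
instance instTopPN (N : ℕ) (L : Type*) [Field L] [TopologicalSpace L] : TopologicalSpace (PN N L) :=
  TopologicalSpace.coinduced (pt (N := N) (L := L)) inferInstance

/-- the inclusion `K^(N+1) → L^(N+1)` for a field extension `L / K` -/
def incl (N : ℕ) (K L : Type*) [Field K] [Field L] [Algebra K L] :
    (Fin (N + 1) → K) →ₛₗ[algebraMap K L] (Fin (N + 1) → L) where
  toFun v i := algebraMap K L (v i)
  map_add' v w := by funext i; simp
  map_smul' a v := by funext i; simp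

theorem incl_inj (N : ℕ) (K L : Type*) [Field K] [Field L] [Algebra K L] :
    Function.Injective (incl N K L) := by
  intro v w h
  funext i
  exact (algebraMap K L).injective (congrFun h i)

/-- the inclusion `P^N(K) → P^N(L)` for a field extension `L / K` -/
def loc (N : ℕ) (K L : Type*) [Field K] [Field L] [Algebra K L] : PN N K → PN N L :=
  Projectivization.map (incl N K L) (incl_inj N K L)

/-- the adelic points of `P^N` over `K`: the product of the `P^N(K_v)` over all places `v` of `K`,
infinite and finite -/
def Adelic (N : ℕ) (K : Type*) [Field K] [NumberField K] : Type _ :=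
  ((v : InfinitePlace K) → PN N v.Completion) ×
    ((v : HeightOneSpectrum (𝓞 K)) → PN N (v.adicCompletion K))

/-- the product topology on the adelic points -/
instance instTopAdelic (N : ℕ) (K : Type*) [Field K] [NumberField K] :
    TopologicalSpace (Adelic N K) :=
  (inferInstance : TopologicalSpace (((v : InfinitePlace K) → PN N v.Completion) ×
    ((v : HeightOneSpectrum (𝓞 K)) → PN N (v.adicCompletion K))))

/-- the diagonal embedding of `P^N(K)` in the adelic points -/
def diag (N : ℕ) (K : Type*) [Field K] [NumberField K] (x : PN N K) : Adelic N K :=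
  (fun v => loc N K v.Completion x, fun v => loc N K (v.adicCompletion K) x)

/-- the adelic closure of a set of `K`-rational points -/
def adelicClosure {N : ℕ} {K : Type*} [Field K] [NumberField K] (S : Set (PN N K)) :
    Set (Adelic N K) := closure (diag N K '' S)

/-- the automorphism of `P^N` over `K` given by an invertible linear map -/
def aut {N : ℕ} {K : Type*} [Field K] (g : (Fin (N + 1) → K) ≃ₗ[K] (Fin (N + 1) → K)) :
    PN N K → PN N K := Projectivization.map g.toLinearMap g.injective

/-- the forward orbit of a point under an automorphism -/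
def orbit {N : ℕ} {K : Type*} [Field K] (g : (Fin (N + 1) → K) ≃ₗ[K] (Fin (N + 1) → K))
    (P : PN N K) : Set (PN N K) := {x | ∃ n : ℕ, (aut g)^[n] P = x}

/-- the `L`-points, for a field extension `L / K`, of the closed subvariety `Y` of `P^N` over `K`
given by a set of homogeneous polynomials over `K`: the points of `P^N(L)` at which all polynomials
of the set vanish -/
def points {N : ℕ} {K : Type*} [Field K] (Y : Set (MvPolynomial (Fin (N + 1)) K))
    (L : Type*) [Field L] [Algebra K L] : Set (PN N L) :=
  {x | ∀ v : {v : Fin (N + 1) → L // v ≠ 0}, pt v = x → ∀ G ∈ Y, MvPolynomial.aeval v.1 G = 0}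

/-- the adelic points of the closed subvariety `Y` -/
def adelicPoints {N : ℕ} {K : Type*} [Field K] [NumberField K]
    (Y : Set (MvPolynomial (Fin (N + 1)) K)) : Set (Adelic N K) :=
  {x | (∀ v, x.1 v ∈ points Y v.Completion) ∧ ∀ v, x.2 v ∈ points Y (v.adicCompletion K)}

/-- a set of `K`-rational points of `P^N` is Zariski dense: the only homogeneous polynomial over
`K` vanishing at all of its points is `0` -/
def ZariskiDense {N : ℕ} {K : Type*} [Field K] (S : Set (PN N K)) : Prop :=
  ∀ (e : ℕ) (G : MvPolynomial (Fin (N + 1)) K), G.IsHomogeneous e →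
    (∀ v : {v : Fin (N + 1) → K // v ≠ 0}, pt v ∈ S → MvPolynomial.eval v.1 G = 0) → G = 0

end Pool.Agent.Y214.DBM
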