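import Pool.Agent.Y214.DBM.Crit

/-!
Convergence facts in the completions of a number field.
-/

set_option autoImplicit false

open NumberField IsDedekindDomain Filter Topology

namespace Pool.Agent.Y214.DBM

theorem tendsto_pt {N : ℕ} {L : Type*} [Field L] [TopologicalSpace L]
    (x : ℕ → {v : Fin (N + 1) → L // v ≠ 0}) (y : {v : Fin (N + 1) → L // v ≠ 0}) (a : ℕ → L)
    (ha : ∀ᶠ k in atTop, a k ≠ 0)
    (h : ∀ i, Tendsto (fun k => a k * (x k).1 i) atTop (𝓝 (y.1 i))) :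
    Tendsto (fun k => pt (x k)) atTop (𝓝 (pt y)) := by
  classical
  let x' : ℕ → {v : Fin (N + 1) → L // v ≠ 0} := fun k =>
    if h : a k = 0 then x k else ⟨a k • (x k).1, smul_ne_zero h (x k).2⟩
  have h1 : ∀ k, pt (x k) = pt (x' k) := by
    intro k
    by_cases hk : a k = 0
    · simp only [x', dif_pos hk]
    · rw [pt_eq_iff]
      refine ⟨(a k)⁻¹, ?_⟩
      simp only [x', dif_neg hk]
      rw [smul_smul, inv_mul_cancel₀ hk, one_smul]
  simp only [h1]
  refine ((cont_pt N L).tendsto y).comp ?_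
  rw [tendsto_subtype_rng, tendsto_pi_nhds]
  intro i
  refine (h i).congr' ?_
  filter_upwards [ha] with k hk
  simp only [x', dif_neg hk, Pi.smul_apply, smul_eq_mul]

section finite

variable {L : Type*} [NormedField L]

theorem tendsto_of_dvd (hint : ∀ n : ℤ, ‖(n : L)‖ ≤ 1) (p : ℕ) (hp : ‖(p : L)‖ < 1)
    (a : ℕ → ℤ) (h : ∀ j : ℕ, ∀ᶠ k in atTop, (p : ℤ) ^ j ∣ a k) :
    Tendsto (fun k => ((a k : ℤ) : L)) atTop (𝓝 0) := by
  rw [tendsto_zero_iff_norm_tendsto_zero, Metric.tendsto_nhds]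
  intro ε hε
  obtain ⟨j, hj⟩ := exists_pow_lt_of_lt_one hε hp
  filter_upwards [h j] with k hk
  rw [Real.dist_eq, sub_zero, abs_of_nonneg (norm_nonneg _)]
  obtain ⟨c, hc⟩ := hk
  rw [hc]
  push_cast
  rw [norm_mul, norm_pow]
  calc ‖(p : L)‖ ^ j * ‖(c : L)‖ ≤ ‖(p : L)‖ ^ j * 1 :=
        mul_le_mul_of_nonneg_left (hint c) (pow_nonneg (norm_nonneg _) _)
    _ < ε := by rw [mul_one]; exact hj

theorem tendsto_fact (hint : ∀ n : ℤ, ‖(n : L)‖ ≤ 1) (p : ℕ) (hp0 : 0 < p) (hp : ‖(p : L)‖ < 1) :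
    Tendsto (fun k : ℕ => ((k.factorial - 1 : ℕ) : L)) atTop (𝓝 (-1)) := by
  have h1 : Tendsto (fun k : ℕ => (((k.factorial : ℕ) : ℤ) : L)) atTop (𝓝 0) := by
    refine tendsto_of_dvd hint p hp _ fun j => ?_
    filter_upwards [eventually_ge_atTop (p ^ j)] with k hk
    exact_mod_cast Nat.dvd_factorial (pow_pos hp0 j) hk
  have h2 : (fun k : ℕ => ((k.factorial - 1 : ℕ) : L)) =
      fun k : ℕ => (((k.factorial : ℕ) : ℤ) : L) - 1 := by
    funext k
    rw [Nat.cast_sub (Nat.one_le_iff_ne_zero.2 (Nat.factorial_ne_zero k)), Nat.cast_one,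
      Int.cast_natCast]
  rw [h2]
  simpa using h1.sub_const 1

theorem tendsto_pow_of_eq (hint : ∀ n : ℤ, ‖(n : L)‖ ≤ 1) (p : ℕ) (hp : ‖(p : L)‖ < 1) :
    Tendsto (fun k : ℕ => ((p ^ (k.factorial - 1) : ℕ) : L)) atTop (𝓝 0) := by
  have := tendsto_of_dvd hint p hp (fun k : ℕ => ((p ^ (k.factorial - 1) : ℕ) : ℤ)) fun j => by
    filter_upwards [eventually_ge_atTop (j + 1)] with k hk
    have h1 : j ≤ k.factorial - 1 := by
      have := Nat.self_le_factorial k
      omega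
    exact_mod_cast pow_dvd_pow p h1
  simpa using this

theorem tendsto_pow_of_ne [CharZero L] (hint : ∀ n : ℤ, ‖(n : L)‖ ≤ 1) (p : ℕ) (hpp : p.Prime)
    (hp : ‖(p : L)‖ < 1) (l : ℕ) (hl : l.Prime) (hne : l ≠ p) :
    Tendsto (fun k : ℕ => ((l ^ (k.factorial - 1) : ℕ) : L)) atTop (𝓝 (l : L)⁻¹) := by
  have h1 : Tendsto (fun k : ℕ => (((l : ℤ) ^ k.factorial - 1 : ℤ) : L)) atTop (𝓝 0) := by
    refine tendsto_of_dvd hint p hp _ fun j => ?_
    filter_upwards [eventually_ge_atTop (p ^ j).totient] with k hk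
    have hco : Nat.Coprime l (p ^ j) := Nat.Coprime.pow_right j ((Nat.coprime_primes hl hpp).2 hne)
    have h2 : (p ^ j).totient ∣ k.factorial :=
      Nat.dvd_factorial (Nat.totient_pos.2 (pow_pos hpp.pos j)) hk
    obtain ⟨c, hc⟩ := h2
    have h3 : l ^ k.factorial ≡ 1 [MOD p ^ j] := by
      rw [hc, pow_mul]
      simpa using (Nat.ModEq.pow_totient hco).pow c
    have h4 := (Nat.modEq_iff_dvd.1 h3.symm)
    exact_mod_cast h4
  have hl0 : (l : L) ≠ 0 := Nat.cast_ne_zero.2 hl.ne_zero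
  have h2 : (fun k : ℕ => ((l ^ (k.factorial - 1) : ℕ) : L)) =
      fun k : ℕ => ((((l : ℤ) ^ k.factorial - 1 : ℤ) : L) + 1) * (l : L)⁻¹ := by
    funext k
    obtain ⟨m, hm⟩ : ∃ m, k.factorial = m + 1 := ⟨k.factorial - 1, by
      have := Nat.factorial_pos k
      omega⟩
    rw [hm]
    push_cast
    rw [sub_add_cancel, pow_succ, mul_assoc, mul_inv_cancel₀ hl0, mul_one]
  rw [h2]
  simpa using (h1.add_const 1).mul_const (l : L)⁻¹

end finite

/-! Facts on the places of a number field. -/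

theorem exists_prime_mem {R : Type*} [CommRing R] (I : Ideal R) [hI : I.IsPrime] (n : ℕ) :
    n ≠ 0 → (n : R) ∈ I → ∃ p : ℕ, p.Prime ∧ (p : R) ∈ I := by
  induction n using Nat.strong_induction_on with
  | _ n ih =>
    intro h0 hn
    have h1 : n ≠ 1 := by
      rintro rfl
      rw [Nat.cast_one] at hn
      exact hI.ne_top ((Ideal.eq_top_iff_one I).2 hn)
    obtain ⟨c, hc⟩ := Nat.minFac_dvd n
    have hp := Nat.minFac_prime h1
    have hn' : ((n.minFac : ℕ) : R) * (c : R) ∈ I := by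
      rw [← Nat.cast_mul, ← hc]
      exact hn
    rcases hI.mem_or_mem hn' with h | h
    · exact ⟨_, hp, h⟩
    · have hc0 : c ≠ 0 := by
        rintro rfl
        rw [mul_zero] at hc
        exact h0 hc
      refine ih c ?_ hc0 h
      calc c < n.minFac * c := by
            have := hp.two_le
            nlinarith [Nat.pos_of_ne_zero hc0]
        _ = n := hc.symm

section places

variable {K : Type*} [Field K] [NumberField K]

theorem exists_prime (v : HeightOneSpectrum (𝓞 K)) :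
    ∃ p : ℕ, p.Prime ∧ ‖((p : ℕ) : v.adicCompletion K)‖ < 1 := by
  have h0 : Ideal.absNorm v.asIdeal ≠ 0 := by
    rw [Ideal.absNorm_ne_zero_iff]
    exact v.asIdeal.finiteQuotientOfFreeOfNeBot v.ne_bot
  obtain ⟨p, hp, hm⟩ := exists_prime_mem v.asIdeal _ h0 (Ideal.absNorm_mem _)
  refine ⟨p, hp, ?_⟩
  have := (FinitePlace.norm_lt_one_iff_mem K v (p : 𝓞 K)).2 hm
  simpa using this

theorem norm_int_le (v : HeightOneSpectrum (𝓞 K)) (n : ℤ) :
    ‖((n : ℤ) : v.adicCompletion K)‖ ≤ 1 := by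
  have := FinitePlace.norm_le_one K v (n : 𝓞 K)
  simpa using this

theorem charZero_fin (v : HeightOneSpectrum (𝓞 K)) : CharZero (v.adicCompletion K) :=
  charZero_of_injective_algebraMap (algebraMap K (v.adicCompletion K)).injective

omit [NumberField K] in
theorem norm_nat_inf (v : InfinitePlace K) (n : ℕ) : ‖((n : ℕ) : v.Completion)‖ = n := by
  have h1 : ((n : ℕ) : v.Completion) = algebraMap K v.Completion (n : K) := by
    rw [map_natCast]
  have h2 : ‖algebraMap K v.Completion (n : K)‖ = v (n : K) :=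
    InfinitePlace.Completion.norm_coe v ((WithAbs.equiv v.1).symm (n : K))
  rw [h1, h2, ← InfinitePlace.norm_embedding_eq, map_natCast]
  simp

end places

end Pool.Agent.Y214.DBM
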