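import Pool.Agent.Y214.DBM.Local

/-!
Subvarieties with two rational points.
-/

set_option autoImplicit false

open NumberField IsDedekindDomain Filter Topology

namespace Pool.Agent.Y214.DBM

/-- a linear functional with prescribed values `δ_ij` on a linearly independent family -/
theorem exists_dual {ι V K : Type*} [Field K] [AddCommGroup V] [Module K V] (v : ι → V)
    (hv : LinearIndependent K v) (i : ι) :
    ∃ φ : V →ₗ[K] K, φ (v i) = 1 ∧ ∀ j, j ≠ i → φ (v j) = 0 := by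
  classical
  obtain ⟨φ, hφ⟩ := LinearMap.exists_extend ((Finsupp.lapply i : (ι →₀ K) →ₗ[K] K).comp hv.repr)
  have key : ∀ j, φ (v j) = (Finsupp.single j (1 : K)) i := by
    intro j
    let x : Submodule.span K (Set.range v) := ⟨v j, Submodule.subset_span ⟨j, rfl⟩⟩
    have h1 : φ (v j) = (hv.repr x) i := LinearMap.congr_fun hφ x
    rw [h1, hv.repr_eq_single j x rfl]
  refine ⟨φ, by rw [key, Finsupp.single_eq_same], fun j hj => ?_⟩
  rw [key, Finsupp.single_eq_of_ne hj.symm]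

section conv

variable {L : Type*} [NormedField L]

theorem inv_fact_tendsto (hn : ∀ n : ℕ, ‖(n : L)‖ = n) :
    Tendsto (fun k : ℕ => ((k.factorial : ℕ) : L)⁻¹) atTop (𝓝 0) := by
  rw [tendsto_zero_iff_norm_tendsto_zero]
  have h1 : Tendsto (fun k : ℕ => ((k.factorial : ℕ) : ℝ)⁻¹) atTop (𝓝 0) :=
    tendsto_inv_atTop_zero.comp (tendsto_natCast_atTop_atTop.comp
      (tendsto_atTop_mono (fun k => Nat.self_le_factorial k) tendsto_id))
  refine h1.congr fun k => ?_
  rw [norm_inv, hn]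

theorem fact_tendsto_zero (hint : ∀ n : ℤ, ‖(n : L)‖ ≤ 1) (p : ℕ) (hp0 : 0 < p)
    (hp : ‖(p : L)‖ < 1) : Tendsto (fun k : ℕ => ((k.factorial : ℕ) : L)) atTop (𝓝 0) := by
  have h1 := (tendsto_fact hint p hp0 hp).add_const 1
  have h2 : (fun k : ℕ => ((k.factorial - 1 : ℕ) : L) + 1) =
      fun k : ℕ => ((k.factorial : ℕ) : L) := by
    funext k
    rw [Nat.cast_sub (Nat.one_le_iff_ne_zero.2 (Nat.factorial_ne_zero k)), Nat.cast_one,
      sub_add_cancel]
  rw [h2] at h1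
  simpa using h1

end conv

theorem fact_succ (k : ℕ) : k.factorial - 1 + 1 = k.factorial :=
  Nat.succ_pred_eq_of_pos (Nat.factorial_pos k)

/-- convergence at an infinite place for orbits `a + (n+1) u + (n+1)² b` -/
theorem conv_inf_quad {N : ℕ} {K : Type*} (L : Type*) [Field K] [NormedField L] [Algebra K L]
    (hn : ∀ n : ℕ, ‖(n : L)‖ = n) (a u b : Fin (N + 1) → K) (hb : b ≠ 0)
    (vec : ℕ → {v : Fin (N + 1) → K // v ≠ 0})
    (hvec : ∀ n, (vec n).1 = a + ((n + 1 : ℕ) : K) • u + (((n + 1) ^ 2 : ℕ) : K) • b) :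
    Tendsto (fun k : ℕ => pt (inclV L (vec (k.factorial - 1)))) atTop
      (𝓝 (pt (inclV L ⟨b, hb⟩))) := by
  have hne : ∀ k : ℕ, ((k.factorial : ℕ) : L) ≠ 0 := by
    intro k
    rw [← norm_ne_zero_iff, hn]
    exact_mod_cast Nat.factorial_ne_zero k
  refine tendsto_pt _ _ (fun k => (((k.factorial : ℕ) : L) ^ 2)⁻¹)
    (Eventually.of_forall fun k => inv_ne_zero (pow_ne_zero _ (hne k))) ?_
  intro i
  have e : ∀ k : ℕ, (((k.factorial : ℕ) : L) ^ 2)⁻¹ * (inclV L (vec (k.factorial - 1))).1 i =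
      (((k.factorial : ℕ) : L)⁻¹) ^ 2 * algebraMap K L (a i) +
        ((k.factorial : ℕ) : L)⁻¹ * algebraMap K L (u i) + algebraMap K L (b i) := by
    intro k
    have h1 : (inclV L (vec (k.factorial - 1))).1 i = algebraMap K L (a i) +
        ((k.factorial : ℕ) : L) * algebraMap K L (u i) +
        ((k.factorial : ℕ) : L) ^ 2 * algebraMap K L (b i) := by
      change algebraMap K L ((vec (k.factorial - 1)).1 i) = _
      rw [hvec, fact_succ]
      simp [smul_eq_mul]
    rw [h1]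
    have := hne k
    field_simp
  simp only [e]
  have h0 := inv_fact_tendsto hn
  have h2 := ((h0.pow 2).mul_const (algebraMap K L (a i))).add
    (h0.mul_const (algebraMap K L (u i)))
  have h3 := h2.add_const (algebraMap K L (b i))
  simpa [inclV, incl] using h3

/-- convergence at a finite place for orbits `a + (n+1) u + (n+1)² b` -/
theorem conv_fin_quad {N : ℕ} {K : Type*} (L : Type*) [Field K] [NormedField L] [Algebra K L]
    (hint : ∀ n : ℤ, ‖(n : L)‖ ≤ 1) (p : ℕ) (hp0 : 0 < p) (hp : ‖(p : L)‖ < 1)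
    (a u b : Fin (N + 1) → K) (ha : a ≠ 0)
    (vec : ℕ → {v : Fin (N + 1) → K // v ≠ 0})
    (hvec : ∀ n, (vec n).1 = a + ((n + 1 : ℕ) : K) • u + (((n + 1) ^ 2 : ℕ) : K) • b) :
    Tendsto (fun k : ℕ => pt (inclV L (vec (k.factorial - 1)))) atTop
      (𝓝 (pt (inclV L ⟨a, ha⟩))) := by
  refine tendsto_pt _ _ (fun _ => 1) (Eventually.of_forall fun k => one_ne_zero) ?_
  intro i
  have e : ∀ k : ℕ, 1 * (inclV L (vec (k.factorial - 1))).1 i = algebraMap K L (a i) +
        ((k.factorial : ℕ) : L) * algebraMap K L (u i) +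
        ((k.factorial : ℕ) : L) ^ 2 * algebraMap K L (b i) := by
    intro k
    change 1 * algebraMap K L ((vec (k.factorial - 1)).1 i) = _
    rw [hvec, fact_succ]
    simp [smul_eq_mul]
  simp only [e]
  have h0 := fact_tendsto_zero hint p hp0 hp
  have h2 := ((h0.mul_const (algebraMap K L (u i))).const_add (algebraMap K L (a i))).add
    ((h0.pow 2).mul_const (algebraMap K L (b i)))
  simpa [inclV, incl] using h2

/-- convergence at an infinite place for orbits `a + (n+1) b` -/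
theorem conv_inf_lin {N : ℕ} {K : Type*} (L : Type*) [Field K] [NormedField L] [Algebra K L]
    (hn : ∀ n : ℕ, ‖(n : L)‖ = n) (a b : Fin (N + 1) → K) (hb : b ≠ 0)
    (vec : ℕ → {v : Fin (N + 1) → K // v ≠ 0})
    (hvec : ∀ n, (vec n).1 = a + ((n + 1 : ℕ) : K) • b) :
    Tendsto (fun k : ℕ => pt (inclV L (vec (k.factorial - 1)))) atTop
      (𝓝 (pt (inclV L ⟨b, hb⟩))) := by
  have hne : ∀ k : ℕ, ((k.factorial : ℕ) : L) ≠ 0 := by
    intro k
    rw [← norm_ne_zero_iff, hn]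
    exact_mod_cast Nat.factorial_ne_zero k
  refine tendsto_pt _ _ (fun k => (((k.factorial : ℕ) : L))⁻¹)
    (Eventually.of_forall fun k => inv_ne_zero (hne k)) ?_
  intro i
  have e : ∀ k : ℕ, (((k.factorial : ℕ) : L))⁻¹ * (inclV L (vec (k.factorial - 1))).1 i =
      ((k.factorial : ℕ) : L)⁻¹ * algebraMap K L (a i) + algebraMap K L (b i) := by
    intro k
    have h1 : (inclV L (vec (k.factorial - 1))).1 i = algebraMap K L (a i) +
        ((k.factorial : ℕ) : L) * algebraMap K L (b i) := by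
      change algebraMap K L ((vec (k.factorial - 1)).1 i) = _
      rw [hvec, fact_succ]
      simp [smul_eq_mul]
    rw [h1]
    have := hne k
    field_simp
  simp only [e]
  have h0 := inv_fact_tendsto hn
  have h3 := (h0.mul_const (algebraMap K L (a i))).add_const (algebraMap K L (b i))
  simpa [inclV, incl] using h3

/-- convergence at a finite place for orbits `a + (n+1) b` -/
theorem conv_fin_lin {N : ℕ} {K : Type*} (L : Type*) [Field K] [NormedField L] [Algebra K L]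
    (hint : ∀ n : ℤ, ‖(n : L)‖ ≤ 1) (p : ℕ) (hp0 : 0 < p) (hp : ‖(p : L)‖ < 1)
    (a b : Fin (N + 1) → K) (ha : a ≠ 0)
    (vec : ℕ → {v : Fin (N + 1) → K // v ≠ 0})
    (hvec : ∀ n, (vec n).1 = a + ((n + 1 : ℕ) : K) • b) :
    Tendsto (fun k : ℕ => pt (inclV L (vec (k.factorial - 1)))) atTop
      (𝓝 (pt (inclV L ⟨a, ha⟩))) := by
  refine tendsto_pt _ _ (fun _ => 1) (Eventually.of_forall fun k => one_ne_zero) ?_
  intro i
  have e : ∀ k : ℕ, 1 * (inclV L (vec (k.factorial - 1))).1 i = algebraMap K L (a i) +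
        ((k.factorial : ℕ) : L) * algebraMap K L (b i) := by
    intro k
    change 1 * algebraMap K L ((vec (k.factorial - 1)).1 i) = _
    rw [hvec, fact_succ]
    simp [smul_eq_mul]
  simp only [e]
  have h0 := fact_tendsto_zero hint p hp0 hp
  have h2 := ((h0.mul_const (algebraMap K L (b i))).const_add (algebraMap K L (a i)))
  simpa [inclV, incl] using h2

/-- two vectors giving different points are linearly independent -/
theorem pair_indep {N : ℕ} {K : Type*} [Field K] (a b : {v : Fin (N + 1) → K // v ≠ 0})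
    (h : pt a ≠ pt b) : ∀ s t : K, s • a.1 + t • b.1 = 0 → s = 0 ∧ t = 0 := by
  intro s t hst
  by_cases hs : s = 0
  · subst hs
    rw [zero_smul, zero_add] at hst
    exact ⟨rfl, (smul_eq_zero.1 hst).resolve_right b.2⟩
  · exfalso
    apply h
    rw [pt_eq_iff]
    refine ⟨-(s⁻¹ * t), ?_⟩
    have h1 : s • a.1 = -(t • b.1) := eq_neg_of_add_eq_zero_left hst
    have h2 : a.1 = s⁻¹ • (s • a.1) := by rw [smul_smul, inv_mul_cancel₀ hs, one_smul]
    rw [h2, h1, neg_smul, smul_neg, smul_smul]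

section main

variable {K : Type*} [Field K] [NumberField K] {N : ℕ}

/-- the case of a line through two points of `Y` that is not contained in `Y` -/
theorem case_line (Y : Set (MvPolynomial (Fin (N + 1)) K))
    (hY : ∀ G ∈ Y, ∃ e, G.IsHomogeneous e) (a b : {v : Fin (N + 1) → K // v ≠ 0})
    (ha : pt a ∈ points Y K) (hb : pt b ∈ points Y K) (hab : pt a ≠ pt b)
    (w : {v : Fin (N + 1) → K // v ≠ 0}) (s t : K) (hw : w.1 = s • a.1 + t • b.1)
    (hwY : pt w ∉ points Y K) :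
    ∃ (g : (Fin (N + 1) → K) ≃ₗ[K] (Fin (N + 1) → K)) (P : PN N K),
      points Y K ∩ orbit g P = ∅ ∧ (adelicPoints Y ∩ adelicClosure (orbit g P)).Nonempty ∧
      adelicClosure (points Y K ∩ orbit g P) ≠ adelicPoints Y ∩ adelicClosure (orbit g P) := by
  have hind := pair_indep a b hab
  rw [mem_points_iff K Y hY] at ha hb hwY
  push Not at hwY
  obtain ⟨G, hGY, hGw⟩ := hwY
  obtain ⟨e, he⟩ := hY G hGY
  have hs : s ≠ 0 := by
    rintro rfl
    apply hGw
    rw [hw, zero_smul, zero_add, eval_smul_hom G he, hb G hGY, mul_zero]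
  -- the restriction of `G` to the line
  let p : Polynomial K := MvPolynomial.aeval
    (fun i => Polynomial.C (a.1 i) + Polynomial.X * Polynomial.C (b.1 i)) G
  have hp : ∀ r : K, p.eval r = MvPolynomial.aeval (a.1 + r • b.1) G := by
    intro r
    change (Polynomial.evalRingHom r) (MvPolynomial.aeval _ G) = _
    rw [MvPolynomial.aeval_def, MvPolynomial.aeval_def, MvPolynomial.hom_eval₂]
    congr 1
    · ext x
      simp
    · funext i
      simp
      exact mul_comm _ _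
  have hp0 : p ≠ 0 := by
    intro h0
    apply hGw
    have h1 := hp (t / s)
    rw [h0, Polynomial.eval_zero] at h1
    have h2 : w.1 = s • (a.1 + (t / s) • b.1) := by
      rw [hw, smul_add, smul_smul, mul_div_cancel₀ _ hs]
    rw [h2, eval_smul_hom G he, ← h1, mul_zero]
  -- an integer scaling that avoids the zeros
  obtain ⟨c, hc0, hc⟩ : ∃ c : ℕ, 0 < c ∧ ∀ m : ℕ, 0 < m → p.eval ((m * c : ℕ) : K) ≠ 0 := by
    have hfin : {n : ℕ | p.eval ((n : ℕ) : K) = 0}.Finite := by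
      have h1 : {x : K | p.IsRoot x}.Finite := Polynomial.finite_setOfPred_isRoot hp0
      exact Set.Finite.preimage (Nat.cast_injective.injOn) h1
    obtain ⟨B, hB⟩ := hfin.bddAbove
    refine ⟨B + 1, Nat.succ_pos _, fun m hm h0 => ?_⟩
    have h1 : m * (B + 1) ≤ B := hB h0
    nlinarith
  have hcK : (c : K) ≠ 0 := Nat.cast_ne_zero.2 hc0.ne'
  obtain ⟨φ, hφa, hφb⟩ : ∃ φ : (Fin (N + 1) → K) →ₗ[K] K, φ a.1 = 1 ∧ φ b.1 = 0 := by
    have hli : LinearIndependent K ![a.1, b.1] := LinearIndependent.pair_iff.2 hind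
    obtain ⟨φ, h1, h2⟩ := exists_dual ![a.1, b.1] hli 0
    exact ⟨φ, h1, h2 1 (by simp)⟩
  let g0 : (Fin (N + 1) → K) →ₗ[K] (Fin (N + 1) → K) :=
    LinearMap.id + φ.smulRight ((c : K) • b.1)
  have hg0 : ∀ v, g0 v = v + φ v • ((c : K) • b.1) := fun v => rfl
  have hinj : Function.Injective g0 := by
    rw [← LinearMap.ker_eq_bot, LinearMap.ker_eq_bot']
    intro v hv
    rw [hg0] at hv
    have h1 := congrArg φ hv
    rw [map_add, map_smul, map_smul, hφb, smul_zero, smul_zero, add_zero, map_zero] at h1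
    rw [h1, zero_smul, add_zero] at hv
    exact hv
  let g := LinearEquiv.ofInjectiveEndo g0 hinj
  have hvec0 : ∀ n : ℕ, a.1 + ((n + 1 : ℕ) : K) • ((c : K) • b.1) ≠ 0 := by
    intro n h0
    rw [smul_smul] at h0
    have h1 := (hind 1 _ (by rw [one_smul]; exact h0)).1
    exact one_ne_zero h1
  let vec : ℕ → {v : Fin (N + 1) → K // v ≠ 0} := fun n =>
    ⟨a.1 + ((n + 1 : ℕ) : K) • ((c : K) • b.1), hvec0 n⟩
  have hcb : (c : K) • b.1 ≠ 0 := smul_ne_zero hcK b.2
  have hbY : pt ⟨(c : K) • b.1, hcb⟩ ∈ points Y K := by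
    rw [mem_points_iff K Y hY]
    intro G' hG'
    obtain ⟨e', he'⟩ := hY G' hG'
    change MvPolynomial.aeval ((c : K) • b.1) G' = 0
    rw [eval_smul_hom G' he', hb G' hG', mul_zero]
  have haY : pt ⟨a.1, a.2⟩ ∈ points Y K := by
    rw [mem_points_iff K Y hY]
    exact ha
  refine ⟨g, pt (vec 0), criterion g vec ?_ Y hY ?_ (fun k => k.factorial - 1) ?_ ?_⟩
  · intro n
    change g0 (a.1 + ((n + 1 : ℕ) : K) • ((c : K) • b.1)) = _
    rw [hg0, map_add, map_smul, map_smul, hφa, hφb]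
    change _ = a.1 + ((n + 1 + 1 : ℕ) : K) • ((c : K) • b.1)
    push_cast
    module
  · intro n hmem
    rw [mem_points_iff K Y hY] at hmem
    have h1 := hmem G hGY
    apply hc (n + 1) (Nat.succ_pos n)
    rw [hp, ← h1]
    congr 2
    change _ = a.1 + ((n + 1 : ℕ) : K) • ((c : K) • b.1)
    rw [smul_smul]
    push_cast
    rfl
  · intro v
    exact ⟨⟨(c : K) • b.1, hcb⟩, hbY,
      conv_inf_lin v.Completion (norm_nat_inf v) a.1 _ hcb vec fun n => rfl⟩
  · intro v
    obtain ⟨p, hpp, hp⟩ := exists_prime v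
    exact ⟨⟨a.1, a.2⟩, haY,
      conv_fin_lin (v.adicCompletion K) (norm_int_le v) p hpp.pos hp a.1 _ a.2 vec fun n => rfl⟩

/-- the case of a linear subspace -/
theorem case_subspace (Y : Set (MvPolynomial (Fin (N + 1)) K))
    (hY : ∀ G ∈ Y, ∃ e, G.IsHomogeneous e) (a b u : {v : Fin (N + 1) → K // v ≠ 0})
    (ha : pt a ∈ points Y K) (hb : pt b ∈ points Y K) (hab : pt a ≠ pt b)
    (hu : pt u ∉ points Y K)
    (hadd : ∀ x y z : {v : Fin (N + 1) → K // v ≠ 0}, pt x ∈ points Y K → pt y ∈ points Y K →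
      ∀ s t : K, z.1 = s • x.1 + t • y.1 → pt z ∈ points Y K) :
    ∃ (g : (Fin (N + 1) → K) ≃ₗ[K] (Fin (N + 1) → K)) (P : PN N K),
      points Y K ∩ orbit g P = ∅ ∧ (adelicPoints Y ∩ adelicClosure (orbit g P)).Nonempty ∧
      adelicClosure (points Y K ∩ orbit g P) ≠ adelicPoints Y ∩ adelicClosure (orbit g P) := by
  have hind := pair_indep a b hab
  -- no combination `s a + t u + r b` with `t ≠ 0` is zero or on `Y`
  have hne : ∀ s t r : K, t ≠ 0 → s • a.1 + t • u.1 + r • b.1 ≠ 0 := by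
    intro s t r ht h0
    apply hu
    refine hadd a b u ha hb (-(t⁻¹ * s)) (-(t⁻¹ * r)) ?_
    have h1 : t • u.1 = -(s • a.1) - r • b.1 := by
      have h2 : t • u.1 = (s • a.1 + t • u.1 + r • b.1) - s • a.1 - r • b.1 := by abel
      rw [h2, h0]
      abel
    have h2 : u.1 = t⁻¹ • (t • u.1) := by rw [smul_smul, inv_mul_cancel₀ ht, one_smul]
    rw [h2, h1]
    module
  have hnotY : ∀ (s t r : K) (ht : t ≠ 0),
      pt (⟨s • a.1 + t • u.1 + r • b.1, hne s t r ht⟩ : {v : Fin (N + 1) → K // v ≠ 0}) ∉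
        points Y K := by
    intro s t r ht hmem
    apply hu
    by_cases hsr : s • a.1 + r • b.1 = 0
    · refine hadd _ a u hmem ha t⁻¹ 0 ?_
      change u.1 = t⁻¹ • (s • a.1 + t • u.1 + r • b.1) + (0 : K) • a.1
      have h1 : s • a.1 + t • u.1 + r • b.1 = (s • a.1 + r • b.1) + t • u.1 := by abel
      rw [h1, hsr, zero_add, smul_smul, inv_mul_cancel₀ ht, one_smul, zero_smul, add_zero]
    · have h1 : pt (⟨s • a.1 + r • b.1, hsr⟩ : {v : Fin (N + 1) → K // v ≠ 0}) ∈ points Y K :=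
        hadd a b _ ha hb s r rfl
      refine hadd _ ⟨s • a.1 + r • b.1, hsr⟩ u hmem h1 t⁻¹ (-t⁻¹) ?_
      change u.1 = t⁻¹ • (s • a.1 + t • u.1 + r • b.1) + (-t⁻¹) • (s • a.1 + r • b.1)
      have h2 : t⁻¹ • (s • a.1 + t • u.1 + r • b.1) + (-t⁻¹) • (s • a.1 + r • b.1) =
          (t⁻¹ * t) • u.1 := by module
      rw [h2, inv_mul_cancel₀ ht, one_smul]
  have hli : LinearIndependent K ![a.1, u.1, b.1] := by
    rw [Fintype.linearIndependent_iff]
    intro c hc
    rw [Fin.sum_univ_three] at hc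
    have h1 : c 1 = 0 := by
      by_contra h
      exact hne (c 0) (c 1) (c 2) h hc
    have h2 : c 0 • a.1 + c 2 • b.1 = 0 := by
      have h3 : c 0 • a.1 + c 1 • u.1 + c 2 • b.1 = 0 := hc
      rw [h1, zero_smul, add_zero] at h3
      exact h3
    obtain ⟨h3, h4⟩ := hind _ _ h2
    intro i
    fin_cases i
    · exact h3
    · exact h1
    · exact h4
  obtain ⟨φ, hφa, hφ⟩ := exists_dual _ hli 0
  obtain ⟨ψ, hψu, hψ⟩ := exists_dual _ hli 1
  have hφa : φ a.1 = 1 := hφa
  have hφu : φ u.1 = 0 := hφ 1 (by decide)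
  have hφb : φ b.1 = 0 := hφ 2 (by decide)
  have hψu : ψ u.1 = 1 := hψu
  have hψa : ψ a.1 = 0 := hψ 0 (by decide)
  have hψb : ψ b.1 = 0 := hψ 2 (by decide)
  let g0 : (Fin (N + 1) → K) →ₗ[K] (Fin (N + 1) → K) :=
    LinearMap.id + φ.smulRight (u.1 + b.1) + ψ.smulRight ((2 : K) • b.1)
  have hg0 : ∀ v, g0 v = v + φ v • (u.1 + b.1) + ψ v • ((2 : K) • b.1) := fun v => rfl
  have hinj : Function.Injective g0 := by
    rw [← LinearMap.ker_eq_bot, LinearMap.ker_eq_bot']
    intro v hv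
    rw [hg0] at hv
    have h1 := congrArg φ hv
    simp only [map_add, map_smul, hφu, hφb, smul_zero, add_zero, map_zero] at h1
    have h2 := congrArg ψ hv
    simp only [map_add, map_smul, hψb, smul_zero, add_zero, map_zero, h1, zero_smul] at h2
    rw [h1, h2, zero_smul, zero_smul, add_zero, add_zero] at hv
    exact hv
  let g := LinearEquiv.ofInjectiveEndo g0 hinj
  have hm0 : ∀ n : ℕ, ((n + 1 : ℕ) : K) ≠ 0 := fun n => Nat.cast_ne_zero.2 (Nat.succ_ne_zero n)
  have e1 : ∀ n : ℕ, (1 : K) • a.1 + ((n + 1 : ℕ) : K) • u.1 + (((n + 1) ^ 2 : ℕ) : K) • b.1 =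
      a.1 + ((n + 1 : ℕ) : K) • u.1 + (((n + 1) ^ 2 : ℕ) : K) • b.1 := by
    intro n
    rw [one_smul]
  let vec : ℕ → {v : Fin (N + 1) → K // v ≠ 0} := fun n =>
    ⟨(1 : K) • a.1 + ((n + 1 : ℕ) : K) • u.1 + (((n + 1) ^ 2 : ℕ) : K) • b.1,
      hne 1 _ _ (hm0 n)⟩
  refine ⟨g, pt (vec 0), criterion g vec ?_ Y hY ?_ (fun k => k.factorial - 1) ?_ ?_⟩
  · intro n
    change g0 ((1 : K) • a.1 + ((n + 1 : ℕ) : K) • u.1 + (((n + 1) ^ 2 : ℕ) : K) • b.1) =
      (1 : K) • a.1 + ((n + 1 + 1 : ℕ) : K) • u.1 + (((n + 1 + 1) ^ 2 : ℕ) : K) • b.1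
    rw [hg0]
    simp only [map_add, map_smul, hφa, hφu, hφb, hψa, hψu, hψb]
    push_cast
    simp only [smul_eq_mul, mul_one, mul_zero, add_zero, zero_add, one_smul]
    module
  · intro n
    exact hnotY 1 _ _ (hm0 n)
  · intro v
    exact ⟨⟨b.1, b.2⟩, hb,
      conv_inf_quad v.Completion (norm_nat_inf v) a.1 u.1 b.1 b.2 vec e1⟩
  · intro v
    obtain ⟨p, hpp, hp⟩ := exists_prime v
    exact ⟨⟨a.1, a.2⟩, ha,
      conv_fin_quad (v.adicCompletion K) (norm_int_le v) p hpp.pos hp a.1 u.1 b.1 a.2 vec e1⟩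

/-- every closed subvariety `Y ≠ P^N` with two rational points -/
theorem two_points (Y : Set (MvPolynomial (Fin (N + 1)) K))
    (hY : ∀ G ∈ Y, ∃ e, G.IsHomogeneous e) (h2 : (points Y K).Nontrivial)
    (hne : points Y K ≠ Set.univ) :
    ∃ (g : (Fin (N + 1) → K) ≃ₗ[K] (Fin (N + 1) → K)) (P : PN N K),
      points Y K ∩ orbit g P = ∅ ∧ (adelicPoints Y ∩ adelicClosure (orbit g P)).Nonempty ∧
      adelicClosure (points Y K ∩ orbit g P) ≠ adelicPoints Y ∩ adelicClosure (orbit g P) := by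
  obtain ⟨x, hx, y, hy, hxy⟩ := h2
  obtain ⟨a, rfl⟩ := exists_rep x
  obtain ⟨b, rfl⟩ := exists_rep y
  obtain ⟨z, hz⟩ := (Set.ne_univ_iff_exists_notMem _).1 hne
  obtain ⟨u, rfl⟩ := exists_rep z
  by_cases hadd : ∀ x y z : {v : Fin (N + 1) → K // v ≠ 0}, pt x ∈ points Y K →
      pt y ∈ points Y K → ∀ s t : K, z.1 = s • x.1 + t • y.1 → pt z ∈ points Y K
  · exact case_subspace Y hY a b u hx hy hxy hz hadd
  · push Not at hadd
    obtain ⟨x, y, z, hx', hy', s, t, hst, hz'⟩ := hadd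
    refine case_line Y hY x y hx' hy' ?_ z s t hst hz'
    intro hxy'
    obtain ⟨r, hr⟩ := (pt_eq_iff x y).1 hxy'
    apply hz'
    have h1 : z.1 = (s * r + t) • y.1 := by
      rw [hst, ← hr]
      module
    have h3 : pt z = pt y := (pt_eq_iff z y).2 ⟨_, h1.symm⟩
    rw [h3]
    exact hy'

end main

end Pool.Agent.Y214.DBM
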